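import Pool.Agent.helper58.BR.SpecN
import Pool.Agent.helper58.LE.HHE

set_option autoImplicit false

namespace Pool.Agent.BR

open Pool.Agent.helper58.DC Pool.Agent.DI Pool.Agent.GR Pool.Agent.OB Pool.Agent.DR Pool.Agent.FI Pool.Agent.FI3 Pool.Agent.FI4 Pool.Agent.LE

theorem HEX_ix (p c : ℕ) : Her p (HIX p c) := by
  constructor
  · rintro G _ _ D T N hp hDN hCN hCT hT ⟨h, K, hK, h1, h2⟩
    have h3 := (HerT_idx (p := p) ((cz D).relIndex T)).sub G D T N hp hDN hCN hCT hT le_rfl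
    refine ⟨h, K.subgroupOf N, fun y => ?_, lt_of_le_of_lt h3 h1, ?_⟩
    · rw [Subgroup.mem_subgroupOf, hK]
      constructor
      · rintro ⟨d, hd, he⟩
        exact ⟨⟨d, hDN hd⟩, Subgroup.mem_subgroupOf.2 hd, Subtype.ext he⟩
      · rintro ⟨d, hd, he⟩
        exact ⟨(d : G), Subgroup.mem_subgroupOf.1 hd, congrArg Subtype.val he⟩
    · rw [Subgroup.relIndex_subgroupOf hDN]
      exact le_trans (Nat.mul_le_mul_right _ (Nat.pow_le_pow_left h3 2)) h2
  · rintro G _ _ D T g h4 h5 h6 ⟨h, K, hK, h1, h2⟩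
    have h3 := (HerT_idx (p := p) ((cz D).relIndex T)).cj G D T g h4 h5 h6 le_rfl
    refine ⟨h, cjS g K, fun y => ?_, lt_of_le_of_lt h3 h1, ?_⟩
    · rw [mem_cjS, hK]
      constructor
      · rintro ⟨d, hd, he⟩
        refine ⟨g * d * g⁻¹, mem_cjS.2 ?_, ?_⟩
        · have h7 : g⁻¹ * (g * d * g⁻¹) * g = d := by group
          rw [h7]
          exact hd
        · rw [conj_pow, he]
          group
      · rintro ⟨d, hd, he⟩
        refine ⟨g⁻¹ * d * g, mem_cjS.1 hd, ?_⟩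
        have h7 : g⁻¹ * d * g = g⁻¹ * d * (g⁻¹)⁻¹ := by rw [inv_inv]
        rw [h7, conj_pow, he]
        group
    · have e1 : (cjS g K).relIndex (cjS g D) = K.relIndex D :=
        Subgroup.relIndex_map_map_of_injective K D (MulAut.conj g).injective
      rw [e1]
      exact le_trans (Nat.mul_le_mul_right _ (Nat.pow_le_pow_left h3 2)) h2

theorem HEX_rk (p r c : ℕ) : Her p (HRK p r c) := by
  constructor
  · rintro G _ _ D T N _ hDN _ _ _ ⟨h, z, hz, hne⟩
    refine ⟨le_trans ?_ h, ⟨z, hDN hz⟩, Subgroup.mem_subgroupOf.2 hz, fun h => hne (congrArg Subtype.val h)⟩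
    refine Set.ncard_le_ncard_of_injOn (fun v : N => (v : G)) ?_ ?_ (Set.toFinite _)
    · rintro v ⟨h1, h2⟩
      refine ⟨Subgroup.mem_subgroupOf.1 h1, ?_⟩
      have h3 := congrArg Subtype.val h2
      simpa using h3
    · intro v _ w _ hvw
      exact Subtype.ext hvw
  · rintro G _ _ D T g _ _ _ ⟨h, z, hz, hne⟩
    refine ⟨le_trans ?_ h, g * z * g⁻¹, mem_cjS.2 ?_, fun h => hne ?_⟩
    · refine Set.ncard_le_ncard_of_injOn (fun v : G => g⁻¹ * v * g) ?_ ?_ (Set.toFinite _)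
      · rintro v ⟨h1, h2⟩
        refine ⟨mem_cjS.1 h1, ?_⟩
        have h3 : g⁻¹ * v * g = g⁻¹ * v * (g⁻¹)⁻¹ := by rw [inv_inv]
        rw [h3, conj_pow, h2]
        group
      · intro v _ w _ hvw
        have h3 : g⁻¹ * v * g = g⁻¹ * w * g := hvw
        exact mul_left_cancel (mul_right_cancel h3)
    · have h2 : g⁻¹ * (g * z * g⁻¹) * g = z := by group
      rw [h2]
      exact hz
    · rw [conj_pow] at h
      have h4 : g⁻¹ * (g * z ^ p ^ (c - 1) * g⁻¹) * g = z ^ p ^ (c - 1) := by group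
      rw [← h4, h]
      group

/-- **HEX**: heredity. -/
theorem HEX : HEX_stmt := fun p _ c r => ⟨HEX_ix p c, HEX_rk p r c⟩

end Pool.Agent.BR
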