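import Pool.Agent.helper59.BR.SpecH

set_option autoImplicit false

namespace Pool.Agent.BR

open Pool.Agent.helper58.DC Pool.Agent.DI Pool.Agent.GR Pool.Agent.OB Pool.Agent.DR Pool.Agent.FI Pool.Agent.FI3 Pool.Agent.FI4 Pool.Agent.LE

/-- quotients of natural numbers which are integral at `p` -/
theorem HHB_int {p : ℕ} {M : Ideal (integralClosure ℤ ℂ)} (hS : Setup p M) {a b : ℕ} (ha : a ≠ 0) (hb : b ≠ 0)
    (h : padicValNat p b ≤ padicValNat p a) : IntAt M ((a : ℂ) / b) := by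
  have hpf : Fact p.Prime := ⟨hS.pr⟩
  obtain ⟨v, a', ha', rfl⟩ := Nat.exists_eq_pow_mul_and_not_dvd ha p hS.pr.ne_one
  obtain ⟨w, b', hb', rfl⟩ := Nat.exists_eq_pow_mul_and_not_dvd hb p hS.pr.ne_one
  have hp0 : (p : ℂ) ≠ 0 := by exact_mod_cast hS.pr.ne_zero
  have ha0 : a' ≠ 0 := by
    rintro rfl
    exact ha' (dvd_zero p)
  have hb0 : b' ≠ 0 := by
    rintro rfl
    exact hb' (dvd_zero p)
  have ea : padicValNat p (p ^ v * a') = v := by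
    rw [padicValNat.mul (pow_ne_zero _ hS.pr.ne_zero) ha0, padicValNat.prime_pow,
      padicValNat.eq_zero_of_not_dvd ha', add_zero]
  have eb : padicValNat p (p ^ w * b') = w := by
    rw [padicValNat.mul (pow_ne_zero _ hS.pr.ne_zero) hb0, padicValNat.prime_pow,
      padicValNat.eq_zero_of_not_dvd hb', add_zero]
  rw [ea, eb] at h
  obtain ⟨k, rfl⟩ := Nat.exists_eq_add_of_le h
  have hb0' : (b' : ℂ) ≠ 0 := by exact_mod_cast hb0
  have e : (((p ^ (w + k) * a' : ℕ) : ℂ) / ((p ^ w * b' : ℕ) : ℂ)) = ((p ^ k : ℕ) : ℂ) * ((a' : ℂ) * (b' : ℂ)⁻¹) := by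
    push_cast
    rw [pow_add]
    field_simp
  rw [e]
  exact IntAt.mul hS (IntAt.natCast hS _) (IntAt.mul hS (IntAt.natCast hS _) (IntAt.inv hS (IntAt.natCast hS _) fun h => hb' ((InM.natCast hS b').1 h)))

/-- The sum over `D` does not change if `u` is replaced by `u ^ s`. -/
theorem HHB_perm {G : Type} [Group G] (D : Subgroup G) [Fintype D] (s : ℕ) (hs : (Nat.card D).Coprime s) (F : G → ℝ) :
    ∑ u : D, F ((u : G) ^ s) = ∑ u : D, F (u : G) := by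
  rw [← (powCoprime hs).sum_comp fun u : D => F (u : G)]
  refine Finset.sum_congr rfl fun u _ => ?_
  rfl

/-- The average. -/
theorem HHB_avg {G : Type} [Group G] (D : Subgroup G) [Fintype D] (n : ℕ) (hn : 0 < n) (hDn : Nat.card D ∣ n) (ζ : ℂ) (hζ : IsPrimitiveRoot ζ n)
    (q : ℝ) (F : G → ℝ) (P : D → Polynomial ℤ)
    (h1 : ∀ u : D, q * Nat.totient n ≤ ∑ μ ∈ primitiveRoots n ℂ, ‖Polynomial.aeval μ (P u)‖)
    (h2 : ∀ u : D, ∀ s : ℕ, s.Coprime n → ‖Polynomial.aeval (ζ ^ s) (P u)‖ = (Nat.card D : ℝ) * F ((u : G) ^ s)) :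
    q ≤ ∑ u : D, F (u : G) := by
  classical
  have hφ : (0 : ℝ) < (Nat.totient n : ℝ) := by exact_mod_cast Nat.totient_pos.2 hn
  have hD : (0 : ℝ) < (Nat.card D : ℝ) := by exact_mod_cast Nat.card_pos
  have hμ : ∀ μ ∈ primitiveRoots n ℂ, ∑ u : D, ‖Polynomial.aeval μ (P u)‖ = (Nat.card D : ℝ) * ∑ u : D, F (u : G) := by
    intro μ hm
    have hne : NeZero n := ⟨hn.ne'⟩
    obtain ⟨s, -, hsn, rfl⟩ := (hζ.isPrimitiveRoot_iff).1 ((mem_primitiveRoots hn).1 hm)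
    rw [Finset.sum_congr rfl fun u _ => h2 u s hsn, ← Finset.mul_sum, HHB_perm D s (Nat.Coprime.coprime_dvd_left hDn hsn.symm) F]
  have h3 : ∑ u : D, (q * Nat.totient n) ≤ ∑ u : D, ∑ μ ∈ primitiveRoots n ℂ, ‖Polynomial.aeval μ (P u)‖ := Finset.sum_le_sum fun u _ => h1 u
  rw [Finset.sum_comm, Finset.sum_congr rfl hμ, Finset.sum_const, Finset.sum_const, Complex.card_primitiveRoots, Finset.card_univ, ← Nat.card_eq_fintype_card,
    nsmul_eq_mul, nsmul_eq_mul] at h3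
  have h4 : (Nat.card D : ℝ) * (q * Nat.totient n) = ((Nat.totient n : ℝ) * Nat.card D) * q := by ring
  have h5 : (Nat.totient n : ℝ) * ((Nat.card D : ℝ) * ∑ u : D, F (u : G)) = ((Nat.totient n : ℝ) * Nat.card D) * ∑ u : D, F (u : G) := by ring
  rw [h4, h5] at h3
  exact le_of_mul_le_mul_left h3 (mul_pos hφ hD)

theorem HHB (hHVP : HVP_stmt) (hPPL : PPL_stmt) (hHNL : HNL_stmt) (hHL1 : HL1_stmt) (hHWT : HWT_stmt) (_hB2 : B2_stmt) : HHB_stmt := by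
  intro p M hS G _ _ D x θ χ lo ψ₀ hψ₀ hnI ψ hψ d k hd hd0 hv
  classical
  have hpf : Fact p.Prime := ⟨hS.pr⟩
  have hft : Fintype D := Fintype.ofFinite D
  have hG0 : Nat.card G ≠ 0 := Nat.card_pos.ne'
  have hD0 : Nat.card D ≠ 0 := Nat.card_pos.ne'
  have hp0 : p ^ k ≠ 0 := pow_ne_zero _ hS.pr.ne_zero
  have a1 : (Nat.card G : ℂ) ≠ 0 := by exact_mod_cast hG0
  have a2 : (Nat.card D : ℂ) ≠ 0 := by exact_mod_cast hD0
  have a3 : (p : ℂ) ^ k ≠ 0 := pow_ne_zero _ (by exact_mod_cast hS.pr.ne_zero)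
  have a4 : (d : ℂ) ≠ 0 := by exact_mod_cast hd0
  have h3 : IntAt M (((Nat.card D * d : ℕ) : ℂ) / ((Nat.card G * p ^ k : ℕ) : ℂ)) := by
    refine HHB_int hS (mul_ne_zero hD0 hd0) (mul_ne_zero hG0 hp0) ?_
    rw [padicValNat.mul hD0 hd0, padicValNat.mul hG0 hp0, padicValNat.prime_pow]
    exact hv.le
  have hn : 0 < p * Nat.card D := Nat.mul_pos hS.pr.pos Nat.card_pos
  have hζ : IsPrimitiveRoot (Complex.exp (2 * Real.pi * Complex.I / (p * Nat.card D : ℕ))) (p * Nat.card D) := Complex.isPrimitiveRoot_exp _ hn.ne'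
  have hpow : ∀ u : D, (u : G) ^ (p * Nat.card D) = 1 := by
    intro u
    have e1 : (u : D) ^ Nat.card D = 1 := pow_card_eq_one'
    have e2 : (u : G) ^ Nat.card D = 1 := congrArg Subtype.val e1
    rw [mul_comm, pow_mul, e2, one_pow]
  have hP : ∀ u : D, ∃ P : Polynomial ℤ, ∀ s : ℕ, ¬ p ∣ s → (Nat.card D : ℂ) * PP p M θ ψ ψ₀ ((u : G) ^ s) =
      Polynomial.aeval ((Complex.exp (2 * Real.pi * Complex.I / (p * Nat.card D : ℕ))) ^ s) P := fun u =>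
    hPPL p M hS G D x θ χ lo u u.2 ψ hψ.1 ψ₀ hψ₀.1 _ hn (hpow u) _ hζ
  choose P hP using hP
  have hcop : ∀ s : ℕ, s.Coprime (p * Nat.card D) → ¬ p ∣ s := by
    intro s hs hps
    have h1 : p ∣ Nat.gcd s (p * Nat.card D) := Nat.dvd_gcd hps (dvd_mul_right _ _)
    rw [hs] at h1
    exact hS.pr.one_lt.ne' (Nat.dvd_one.1 h1)
  have hq : ∀ u : D, ((p : ℝ) ^ k) * Nat.totient (p * Nat.card D) ≤ ∑ μ ∈ primitiveRoots (p * Nat.card D) ℂ, ‖Polynomial.aeval μ (P u)‖ := by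
    intro u
    refine hHNL p M hS _ k hn (P u) fun μ hm => ?_
    have hne : NeZero (p * Nat.card D) := ⟨hn.ne'⟩
    obtain ⟨s, -, hsn, rfl⟩ := (hζ.isPrimitiveRoot_iff).1 ((mem_primitiveRoots hn).1 hm)
    rw [← hP u s (hcop s hsn)]
    obtain ⟨v1, v2⟩ := hHVP p M hS G D x θ χ lo ((u : G) ^ s) (D.pow_mem u.2 s) ψ₀ hψ₀ hnI ψ hψ
    have hV0 : (Nat.card G : ℂ) * PP p M θ ψ ψ₀ ((u : G) ^ s) / ψ 1 ≠ 0 := fun h0 => v2 (h0 ▸ InM.zero hS)
    constructor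
    · intro h0
      apply hV0
      have h1 : PP p M θ ψ ψ₀ ((u : G) ^ s) = 0 := (mul_eq_zero.1 h0).resolve_left a2
      rw [h1, mul_zero, zero_div]
    · have h4 := IntAt.mul hS v1 h3
      have e : (Nat.card G : ℂ) * PP p M θ ψ ψ₀ ((u : G) ^ s) / ψ 1 * (((Nat.card D * d : ℕ) : ℂ) / ((Nat.card G * p ^ k : ℕ) : ℂ)) =
          (Nat.card D : ℂ) * PP p M θ ψ ψ₀ ((u : G) ^ s) / (p : ℂ) ^ k := by
        rw [hd]
        push_cast
        field_simp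
      rw [e] at h4
      exact h4
  have hF : ∀ u : D, ∀ s : ℕ, s.Coprime (p * Nat.card D) →
      ‖Polynomial.aeval ((Complex.exp (2 * Real.pi * Complex.I / (p * Nat.card D : ℕ))) ^ s) (P u)‖ = (Nat.card D : ℝ) * (fun g : G => ‖PP p M θ ψ ψ₀ g‖) ((u : G) ^ s) := by
    intro u s hs
    rw [← hP u s (hcop s hs), norm_mul, Complex.norm_natCast]
  have h5 := HHB_avg D (p * Nat.card D) hn (dvd_mul_left _ _) _ hζ ((p : ℝ) ^ k) (fun g => ‖PP p M θ ψ ψ₀ g‖) P hq hF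
  have h6 := hHL1 p M hS G D x θ χ lo ψ hψ ψ₀ hψ₀
  have h7 : ∑ᶠ u ∈ (D : Set G), ‖ci M D θ u * PP p M θ ψ ψ₀ u‖ = ∑ u : D, ‖ci M D θ (u : G) * PP p M θ ψ ψ₀ (u : G)‖ := by
    rw [← finsum_set_coe_eq_finsum_mem (f := fun u : G => ‖ci M D θ u * PP p M θ ψ ψ₀ u‖) (D : Set G)]
    exact finsum_eq_sum_of_fintype _
  rw [h7] at h6
  have h8 : ∑ u : D, (fun g : G => ‖PP p M θ ψ ψ₀ g‖) (u : G) ≤ ∑ u : D, ‖ci M D θ (u : G) * PP p M θ ψ ψ₀ (u : G)‖ := by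
    refine Finset.sum_le_sum fun u _ => ?_
    obtain ⟨c, hc, hcc⟩ := (hHWT M G D θ lo.rt.th u u.2).2
    show ‖PP p M θ ψ ψ₀ (u : G)‖ ≤ _
    rw [norm_mul, hcc, Complex.norm_real, Real.norm_eq_abs, abs_of_nonneg (by linarith)]
    exact le_mul_of_one_le_left (norm_nonneg _) hc
  have h9 : ((p : ℝ) ^ k) ≤ (iI M D θ : ℝ) := h5.trans (h8.trans h6)
  exact_mod_cast h9

end Pool.Agent.BR
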