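import Pool.Agent.helper58.BR.SpecN
import Pool.Agent.helper95.LE.ALLT

set_option autoImplicit false

namespace Pool.Agent.BR

open Pool.Agent.helper58.DC Pool.Agent.DI Pool.Agent.GR Pool.Agent.OB Pool.Agent.DR Pool.Agent.FI Pool.Agent.FI3 Pool.Agent.FI4 Pool.Agent.LE

theorem RKI_card {G : Type} [Group G] [Finite G] (D : Subgroup G) (P : D → Prop) (Q : G → Prop) (h : ∀ d : D, P d ↔ Q d) :
    Nat.card {d : D // P d} = {u : G | u ∈ D ∧ Q u}.ncard := by
  have h1 : {u : G | u ∈ D ∧ Q u} = (fun d : D => (d : G)) '' {d : D | P d} := by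
    ext u
    constructor
    · rintro ⟨h2, h3⟩
      exact ⟨⟨u, h2⟩, (h ⟨u, h2⟩).2 h3, rfl⟩
    · rintro ⟨d, h2, rfl⟩
      exact ⟨d.2, (h d).1 h2⟩
  rw [h1, Set.ncard_image_of_injective _ Subtype.val_injective]
  exact Nat.card_coe_set_eq {d : D | P d}

theorem RKI_num (p r a b : ℕ) (ha : a < p ^ (r * (r + 1) / 2)) (hb : b ≤ p ^ (r * (r * (r + 1) / 2))) :
    a ^ 2 * b ^ 2 ≤ p ^ (r * (r + 1) ^ 2) := by
  have h1 : 2 * (r * (r + 1) / 2) = r * (r + 1) := Nat.mul_div_cancel' (Nat.even_mul_succ_self r).two_dvd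
  calc a ^ 2 * b ^ 2 ≤ (p ^ (r * (r + 1) / 2)) ^ 2 * (p ^ (r * (r * (r + 1) / 2))) ^ 2 :=
        Nat.mul_le_mul (Nat.pow_le_pow_left ha.le 2) (Nat.pow_le_pow_left hb 2)
    _ = p ^ ((r * (r + 1) / 2) * 2 + (r * (r * (r + 1) / 2)) * 2) := by rw [← pow_mul, ← pow_mul, ← pow_add]
    _ = p ^ (r * (r + 1) ^ 2) := by
        congr 1
        calc (r * (r + 1) / 2) * 2 + (r * (r * (r + 1) / 2)) * 2 = (2 * (r * (r + 1) / 2)) * (r + 1) := by ring
          _ = r * (r + 1) ^ 2 := by rw [h1]; ring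

theorem RKI (hRKP : RKP_stmt) : RKI_stmt := by
  intro p r hp hr G _ _ D T com pg nor cop hrk
  let _ := ALT_inst D com
  have hker : Nat.card (powMonoidHom p : D →* D).ker ≤ p ^ r := by
    refine le_trans (le_of_eq ?_) hrk
    refine RKI_card D (fun d => d ∈ (powMonoidHom p : D →* D).ker) (fun u => u ^ p = 1) (fun d => ?_)
    rw [MonoidHom.mem_ker]
    show d ^ p = 1 ↔ (d : G) ^ p = 1
    rw [Subtype.ext_iff]
    rfl
  obtain ⟨h1, h2⟩ := hRKP p r hp hr D pg hker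
  have hcop : ¬ p ∣ Nat.card (ALT_rho D T nor).range := by
    rw [ALT_card]
    exact cop
  have h3 := h1 _ hcop
  rw [ALT_card] at h3
  have h4 := h2 (r * (r + 1) / 2)
  have he : 1 ≤ r * (r + 1) / 2 := by
    rw [Nat.le_div_iff_mul_le (by norm_num)]
    nlinarith
  refine ⟨r * (r + 1) / 2 - 1, ((powMonoidHom (p ^ (r * (r + 1) / 2)) : D →* D).range).map D.subtype, fun y => ?_, ?_, ?_⟩
  · rw [Nat.sub_add_cancel he, Subgroup.mem_map]
    constructor
    · rintro ⟨x, ⟨d, hd⟩, hx⟩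
      refine ⟨d, d.2, ?_⟩
      rw [← hx, ← hd]
      rfl
    · rintro ⟨d, hd, hy⟩
      exact ⟨(⟨d, hd⟩ : D) ^ p ^ (r * (r + 1) / 2), ⟨⟨d, hd⟩, rfl⟩, hy⟩
  · rw [Nat.sub_add_cancel he]
    exact h3
  · refine RKI_num p r _ _ h3 (le_trans (le_of_eq ?_) h4)
    have h5 : (((powMonoidHom (p ^ (r * (r + 1) / 2)) : D →* D).range).map D.subtype).subgroupOf D = (powMonoidHom (p ^ (r * (r + 1) / 2)) : D →* D).range := by
      ext x
      rw [Subgroup.mem_subgroupOf, Subgroup.mem_map]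
      constructor
      · rintro ⟨x', hx', he'⟩
        have : x' = x := Subtype.ext he'
        rw [← this]
        exact hx'
      · intro hx
        exact ⟨x, hx, rfl⟩
    show ((((powMonoidHom (p ^ (r * (r + 1) / 2)) : D →* D).range).map D.subtype).subgroupOf D).index = _
    rw [h5]

end Pool.Agent.BR
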