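import Pool.Agent.helper45.BR.Spec
import Pool.Agent.helper90.NL.CTB

/-!
DIS of project br: (MP_af9036_an): the distributional derivative of the Cauchy transform.
-/

set_option autoImplicit false

open Complex Metric Set Filter Topology MeasureTheory MPS Pool.Agent.helper98.ILF
  Pool.Agent.helper16.Multibrot

noncomputable section

namespace BR

theorem DIS_dcont (φ : ℂ → ℂ) (h : ContDiff ℝ 1 φ) : Continuous (dbar φ) := by
  have h1 : Continuous (fderiv ℝ φ) := h.continuous_fderiv (by norm_num)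
  unfold dbar
  have h2 : Continuous (fun z => fderiv ℝ φ z 1) := h1.clm_apply continuous_const
  have h3 : Continuous (fun z => fderiv ℝ φ z I) := h1.clm_apply continuous_const
  exact (h2.add (continuous_const.mul h3)).div_const 2

theorem DIS_dsupp (φ : ℂ → ℂ) (h : HasCompactSupport φ) : HasCompactSupport (dbar φ) := by
  have h1 : HasCompactSupport (fderiv ℝ φ) := h.fderiv ℝ
  have h2 := h1.comp_left (g := fun L : ℂ →L[ℝ] ℂ => (L 1 + I * L I) / 2) (by simp)
  exact h2

theorem DIS_prod (hMI : MI_stmt) (μ : ℂ → ℂ) (hm : Measurable μ) (hb : ∀ z, ‖μ z‖ ≤ 1)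
    (hs : ∀ z, μ z ≠ 0 → ‖z‖ < 4) (φ : ℂ → ℂ) (h1 : ContDiff ℝ 1 φ) (h2 : HasCompactSupport φ) :
    Integrable (fun p : ℂ × ℂ => μ p.2 / (p.2 - p.1) * dbar φ p.1)
      ((volume : Measure ℂ).prod volume) := by
  have hmeas : Measurable (fun p : ℂ × ℂ => μ p.2 / (p.2 - p.1) * dbar φ p.1) :=
    ((hm.comp measurable_snd).div (measurable_snd.sub measurable_fst)).mul
      ((DIS_dcont φ h1).measurable.comp measurable_fst)
  rw [integrable_prod_iff hmeas.aestronglyMeasurable]
  refine ⟨Eventually.of_forall fun b => (NLF.CTB_int hMI μ hm hb hs b).mul_const (dbar φ b), ?_⟩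
  have hdom : Integrable (fun b : ℂ => ‖dbar φ b‖ * (2 * Real.pi * (‖b‖ + 4))) := by
    apply Continuous.integrable_of_hasCompactSupport
    · exact (DIS_dcont φ h1).norm.mul (by fun_prop)
    · exact (DIS_dsupp φ h2).norm.mul_right
  refine Integrable.mono' hdom ?_ ?_
  · exact hmeas.norm.aestronglyMeasurable.integral_prod_right'
  · refine Eventually.of_forall fun b => ?_
    have hn : 0 ≤ ‖b‖ + 4 := by positivity
    have e1 : ∫ z : ℂ, ‖μ z / (z - b) * dbar φ b‖ = (∫ z : ℂ, ‖μ z / (z - b)‖) * ‖dbar φ b‖ := by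
      rw [← integral_mul_const]
      congr 1
      funext z
      rw [norm_mul]
    have e2 : ∫ z : ℂ, ‖μ z / (z - b)‖ ≤ 2 * Real.pi * (‖b‖ + 4) := by
      rw [← (NLF.CTB_dom hMI b (‖b‖ + 4) hn).2]
      exact integral_mono (NLF.CTB_int hMI μ hm hb hs b).norm (NLF.CTB_dom hMI b (‖b‖ + 4) hn).1
        (fun z => NLF.CTB_norm μ hb hs b z)
    show ‖∫ z : ℂ, ‖μ z / (z - b) * dbar φ b‖‖ ≤ _
    rw [Real.norm_of_nonneg (integral_nonneg fun z => norm_nonneg _), e1, mul_comm]
    exact mul_le_mul_of_nonneg_left e2 (norm_nonneg _)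

theorem DIS (hCPF : CPF_stmt) (hMI : MI_stmt) : DIS_stmt := by
  intro μ hm hb hs φ h1 h2
  have hsw := integral_integral_swap (f := fun b z : ℂ => μ z / (z - b) * dbar φ b)
    (DIS_prod hMI μ hm hb hs φ h1 h2)
  have e1 : ∫ b : ℂ, NLF.CT μ b * dbar φ b = ∫ b : ℂ, ∫ z : ℂ, μ z / (z - b) * dbar φ b := by
    congr 1
    funext b
    rw [integral_mul_const]
    rfl
  have e2 : ∀ z : ℂ, ∫ b : ℂ, μ z / (z - b) * dbar φ b = Real.pi * (μ z * φ z) := by
    intro z
    have h3 := (hCPF φ z h1 h2).2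
    have h4 : ∫ b : ℂ, μ z / (z - b) * dbar φ b = ∫ b : ℂ, -μ z * (dbar φ b / (b - z)) := by
      congr 1
      funext b
      rw [← neg_sub b z, div_neg]
      ring
    rw [h4, integral_const_mul, h3]
    ring
  rw [e1, hsw]
  simp_rw [e2]
  rw [integral_const_mul]

end BR
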